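import Mathlib
import Pool.Agent.Lib.MP_4b13b5_an.C73_Low

set_option autoImplicit false
open Matrix Polynomial

namespace Pool.Agent.Results.MP_4b13b5_an.Classification

/-- The polynomial `z^n + a_1 z^(n-1) + ... + a_n` over the complex numbers. -/
noncomputable def charPoly {n : ℕ} (a : Fin n → ℝ) : ℂ[X] :=
  X ^ n + ∑ j : Fin n, C ((a j : ℝ) : ℂ) * X ^ (n - (j.val + 1))

/-- Every complex root lies in the open unit disc. -/
def Stable {n : ℕ} (a : Fin n → ℝ) : Prop := ∀ z : ℂ, (charPoly a).IsRoot z → ‖z‖ < 1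

/-- Symmetric Toeplitz matrices. -/
def SymToeplitz {n : ℕ} (R : Matrix (Fin n) (Fin n) ℝ) : Prop :=
  ∃ r : ℕ → ℝ, ∀ i j : Fin n, R i j = r (Int.natAbs ((i.val : ℤ) - (j.val : ℤ)))

/-- The set of robustly stable parameters. -/
def S (n : ℕ) : Set (Fin n → ℝ) :=
  {a | Stable a ∧ ∀ R : Matrix (Fin n) (Fin n) ℝ, R.PosDef → SymToeplitz R →
    Stable ((R * (1 + R)⁻¹) *ᵥ a)}

lemma stable_iff {n : ℕ} (a : Fin n → ℝ) : Stable a ↔ Lib.MP_4b13b5_an.C73.Stab a := by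
  have h : ∀ z : ℂ, (charPoly a).IsRoot z ↔
      z ^ n + ∑ j : Fin n, ((a j : ℝ) : ℂ) * z ^ (n - (j.val + 1)) = 0 := by
    intro z
    simp [charPoly, IsRoot, eval_finsetSum]
  constructor
  · intro hs z hz h0
    exact absurd (hs z ((h z).mpr h0)) (not_lt.mpr hz)
  · intro hs z hz
    by_contra hc
    exact hs z (not_lt.mp hc) ((h z).mp hz)

theorem result (n : ℕ) : Convex ℝ (S n) ↔ n ≤ 2 := by
  have e : S n = Lib.MP_4b13b5_an.C73.SS n := by
    ext a
    simp only [S, Lib.MP_4b13b5_an.C73.SS, Set.mem_ofPred_eq, stable_iff]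
    rfl
  rw [e]
  exact Lib.MP_4b13b5_an.C73.convex_iff n

end Pool.Agent.Results.MP_4b13b5_an.Classification
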